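import Pool.Agent.Helper2.TS.Spec

/-!
# TS: the part ERR
-/

set_option autoImplicit false

open Polynomial Filter Topology
open scoped NumberField

namespace Pool.Agent.Helper27.TS.ERR

open Pool.Agent.Helper20.EP Pool.Agent.Helper2.TS

/-- The bound of one term. -/
theorem term_bound (p f j : ℕ) (hp : 2 ≤ p) (hf : 1 ≤ f) (hj : 1 ≤ j) (hfj : ¬ (f = 1 ∧ j = 1)) :
    (f : ℝ) / ((p : ℝ) ^ f) ^ j ≤ 4 * (1 / 2 : ℝ) ^ j * (1 / (p : ℝ) ^ 2) := by
  have hp2 : (2 : ℝ) ≤ p := by exact_mod_cast hp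
  have hp0 : (0 : ℝ) < p := by linarith
  have h2 : 2 ≤ f * j := by
    rcases Nat.lt_or_ge 1 f with h | h
    · exact Nat.mul_le_mul h hj |>.trans' (by norm_num)
    · have hf1 : f = 1 := by omega
      subst hf1
      have : j ≠ 1 := fun h => hfj ⟨rfl, h⟩
      omega
  obtain ⟨m, hm⟩ := Nat.exists_eq_add_of_le h2
  have h3 : ((p : ℝ) ^ f) ^ j = (p : ℝ) ^ 2 * (p : ℝ) ^ m := by
    rw [← pow_mul, hm, pow_add]
  have h4 : (2 : ℝ) ^ m ≤ (p : ℝ) ^ m := pow_le_pow_left₀ (by norm_num) hp2 m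
  have h5 : (f : ℝ) ≤ 2 ^ (f - 1) := by
    have : f ≤ 2 ^ (f - 1) := by
      have h := Nat.lt_two_pow_self (n := f - 1)
      omega
    exact_mod_cast this
  have h6 : f - 1 + j ≤ m + 2 := by
    rw [Nat.add_comm m 2, ← hm]
    obtain ⟨a, rfl⟩ := Nat.exists_eq_add_of_le hf
    obtain ⟨b, rfl⟩ := Nat.exists_eq_add_of_le hj
    simp only [Nat.add_sub_cancel_left]
    nlinarith
  have h7 : (f : ℝ) * 2 ^ j ≤ 4 * 2 ^ m := by
    calc (f : ℝ) * 2 ^ j ≤ 2 ^ (f - 1) * 2 ^ j := by gcongr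
      _ = 2 ^ (f - 1 + j) := by rw [pow_add]
      _ ≤ 2 ^ (m + 2) := pow_le_pow_right₀ (by norm_num) h6
      _ = 4 * 2 ^ m := by ring
  rw [h3, one_div_pow, div_le_iff₀ (by positivity)]
  have h8 : 4 * (1 / (2 : ℝ) ^ j) * (1 / (p : ℝ) ^ 2) * ((p : ℝ) ^ 2 * (p : ℝ) ^ m)
      = 4 * (p : ℝ) ^ m / 2 ^ j := by
    field_simp
  rw [h8, le_div_iff₀ (by positivity)]
  nlinarith

theorem geom_le (J : ℕ) : ∑ j ∈ Finset.Icc 1 J, (1 / 2 : ℝ) ^ j ≤ 1 := by
  have h : ∀ J : ℕ, ∑ j ∈ Finset.Icc 1 J, (1 / 2 : ℝ) ^ j = 1 - (1 / 2 : ℝ) ^ J := by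
    intro J
    induction J with
    | zero => simp
    | succ n ih =>
      rw [Finset.sum_Icc_succ_top (by omega), ih, pow_succ]
      ring
  rw [h]
  have : (0 : ℝ) ≤ (1 / 2 : ℝ) ^ J := by positivity
  linarith

theorem sum_primes_dvd (n : ℤ) (hn : n ≠ 0) (s : Finset ℕ)
    (hs : ∀ p ∈ s, p.Prime ∧ (p : ℤ) ∣ n) :
    ∑ p ∈ s, Real.log p / p ≤ Real.log |(n : ℝ)| := by
  have hn0 : n.natAbs ≠ 0 := by simpa using hn
  have h1 : s ⊆ n.natAbs.primeFactors := by
    intro p hp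
    rw [Nat.mem_primeFactors]
    exact ⟨(hs p hp).1, Int.natCast_dvd.1 (hs p hp).2, hn0⟩
  have hpos : ∀ p ∈ n.natAbs.primeFactors, (1 : ℝ) ≤ p := by
    intro p hp
    exact_mod_cast (Nat.prime_of_mem_primeFactors hp).one_lt.le
  calc ∑ p ∈ s, Real.log p / p ≤ ∑ p ∈ n.natAbs.primeFactors, Real.log p / p := by
        refine Finset.sum_le_sum_of_subset_of_nonneg h1 fun p hp _ => ?_
        have := hpos p hp
        exact div_nonneg (Real.log_nonneg this) (by linarith)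
    _ ≤ ∑ p ∈ n.natAbs.primeFactors, Real.log p := by
        refine Finset.sum_le_sum fun p hp => ?_
        have := hpos p hp
        exact div_le_self (Real.log_nonneg this) this
    _ = Real.log (∏ p ∈ n.natAbs.primeFactors, (p : ℝ)) := by
        rw [Real.log_prod]
        intro p hp
        have := hpos p hp
        linarith
    _ ≤ Real.log |(n : ℝ)| := by
        have h2 : ((∏ p ∈ n.natAbs.primeFactors, p : ℕ) : ℝ) ≤ (n.natAbs : ℝ) := by
          exact_mod_cast Nat.le_of_dvd (Nat.pos_of_ne_zero hn0) (Nat.prod_primeFactors_dvd _)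
        have h3 : (n.natAbs : ℝ) = |(n : ℝ)| := by
          rw [Nat.cast_natAbs, Int.cast_abs]
        rw [h3] at h2
        push_cast at h2
        refine Real.log_le_log ?_ h2
        refine Finset.prod_pos fun p hp => ?_
        have := hpos p hp
        linarith

open Classical in
theorem main (hN : S_NRM) (hA : S_ABV) (hD : S_DSC) (hS2 : S_SUM2) (hS3 : S_SUM3) : S_ERR := by
  intro D
  obtain ⟨C1, hC1⟩ := hD D
  obtain ⟨C2, hC2, hS2⟩ := hS2
  obtain ⟨C3, hC3, hS3⟩ := hS3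
  obtain ⟨n, hn⟩ := pow_unbounded_of_one_lt ((D : ℝ) * (4 * C3 + C2 + C1)) (one_lt_two (α := ℝ))
  refine ⟨n + 1, ?_⟩
  intro g H hg K _ _ θ hθ Y Z J hY hYZ
  obtain ⟨hA1, hA2⟩ := hA K
  have hdsc : dsc g θ ≠ 0 := ((hN g D H hg).2.2 K θ hθ).2.2.2
  have hdH : |((dsc g θ : ℤ) : ℝ)| ≤ H ^ C1 := hC1 g H hg K θ hθ
  have hH2 : 2 ≤ H := hg.two_le
  have hH0 : 0 < H := by linarith
  have hZ1 : (1 : ℝ) ≤ Z := hY.trans hYZ
  -- the bound at the prime `p`
  set B : ℕ → ℝ := fun p => if Y < p ∨ (p : ℤ) ∣ dsc g θ then Real.log p / p else 0 with hB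
  have hB0 : ∀ p : ℕ, 1 ≤ p → 0 ≤ B p := by
    intro p hp
    have hp1 : (1 : ℝ) ≤ p := by exact_mod_cast hp
    simp only [hB]
    split_ifs
    · exact div_nonneg (Real.log_nonneg hp1) (by linarith)
    · exact le_rfl
  set W : ℕ → ℝ := fun p => 4 * (Real.log p / (p : ℝ) ^ 2) + B p with hW
  set q : Ideal (𝓞 K) → ℕ := fun P => (Ideal.absNorm P).minFac with hq
  have hPP : ∀ P ∈ PP K Z, (q P).Prime ∧ (q P : 𝓞 K) ∈ P ∧ q P ≤ Z ∧
      ∃ f : ℕ, 1 ≤ f ∧ Ideal.absNorm P = (q P) ^ f := by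
    intro P hP
    rw [mem_PP] at hP
    obtain ⟨p, f, hp, hf, hNP, hmem⟩ := hA1 P hP.1 hP.2.1
    have hqp : q P = p := by
      simp only [hq]
      rw [hNP, Nat.Prime.pow_minFac hp (by omega)]
    rw [hqp]
    refine ⟨hp, hmem, ?_, f, hf, hNP⟩
    refine le_trans ?_ (hNP ▸ hP.2.2)
    exact Nat.le_self_pow (by omega) p
  -- the sum for one prime ideal
  have hone : ∀ P ∈ PP K Z, ∑ j ∈ Finset.Icc 1 J,
      (if j = 1 ∧ (Ideal.absNorm P).Prime ∧ (Ideal.absNorm P : ℝ) ≤ Y ∧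
          ¬ (Ideal.absNorm P : ℤ) ∣ dsc g θ then 0
        else Real.log (Ideal.absNorm P : ℝ) / (Ideal.absNorm P : ℝ) ^ j) ≤ W (q P) := by
    intro P hP
    obtain ⟨hp, -, -, f, hf, hNP⟩ := hPP P hP
    set p := q P with hpdef
    have hp2 : (2 : ℝ) ≤ p := by exact_mod_cast hp.two_le
    have hlp : 0 ≤ Real.log p := Real.log_nonneg (by linarith)
    have hterm : ∀ j ∈ Finset.Icc 1 J, (if j = 1 ∧ (Ideal.absNorm P).Prime ∧ (Ideal.absNorm P : ℝ) ≤ Y ∧
          ¬ (Ideal.absNorm P : ℤ) ∣ dsc g θ then 0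
        else Real.log (Ideal.absNorm P : ℝ) / (Ideal.absNorm P : ℝ) ^ j) ≤
        4 * (1 / 2 : ℝ) ^ j * (Real.log p / (p : ℝ) ^ 2) + (if j = 1 then B p else 0) := by
      intro j hj
      have hj1 : 1 ≤ j := (Finset.mem_Icc.1 hj).1
      have hBj : 0 ≤ (if j = 1 then B p else 0) := by
        split_ifs
        · exact hB0 p (by have := hp.two_le; omega)
        · exact le_rfl
      have hnn : 0 ≤ 4 * (1 / 2 : ℝ) ^ j * (Real.log p / (p : ℝ) ^ 2) := by positivity
      by_cases hfj : f = 1 ∧ j = 1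
      · obtain ⟨rfl, rfl⟩ := hfj
        rw [pow_one] at hNP
        rw [hNP]
        by_cases hc : Y < p ∨ (p : ℤ) ∣ dsc g θ
        · rw [if_neg (by
            rintro ⟨-, -, h1, h2⟩
            rcases hc with hc | hc
            · linarith
            · exact h2 hc), if_pos rfl]
          simp only [hB, if_pos hc, pow_one]
          rw [pow_one] at hnn
          linarith
        · push Not at hc
          rw [if_pos ⟨rfl, hp, hc.1, hc.2⟩]
          exact add_nonneg hnn hBj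
      · have h1 := term_bound p f j hp.two_le hf hj1 hfj
        have h2 : Real.log (Ideal.absNorm P : ℝ) / (Ideal.absNorm P : ℝ) ^ j ≤
            4 * (1 / 2 : ℝ) ^ j * (Real.log p / (p : ℝ) ^ 2) := by
          rw [hNP]
          push_cast
          rw [Real.log_pow]
          calc (f : ℝ) * Real.log p / ((p : ℝ) ^ f) ^ j = ((f : ℝ) / ((p : ℝ) ^ f) ^ j) * Real.log p := by ring
            _ ≤ (4 * (1 / 2 : ℝ) ^ j * (1 / (p : ℝ) ^ 2)) * Real.log p :=
                mul_le_mul_of_nonneg_right h1 hlp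
            _ = _ := by ring
        split_ifs at hBj ⊢ <;> linarith
    refine (Finset.sum_le_sum hterm).trans ?_
    rw [Finset.sum_add_distrib]
    have h1 : ∑ j ∈ Finset.Icc 1 J, 4 * (1 / 2 : ℝ) ^ j * (Real.log p / (p : ℝ) ^ 2) ≤
        4 * (Real.log p / (p : ℝ) ^ 2) := by
      rw [← Finset.sum_mul, ← Finset.mul_sum]
      have := geom_le J
      have h0 : 0 ≤ Real.log p / (p : ℝ) ^ 2 := by positivity
      nlinarith
    have h2 : ∑ j ∈ Finset.Icc 1 J, (if j = 1 then B p else 0) ≤ B p := by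
      rw [Finset.sum_ite_eq']
      split_ifs
      · exact le_rfl
      · exact hB0 p (by have := hp.two_le; omega)
    simp only [hW]
    linarith
  refine (Finset.sum_le_sum hone).trans ?_
  -- group by the primes
  have hmaps : ∀ P ∈ PP K Z, q P ∈ primesLE Z := by
    intro P hP
    obtain ⟨hp, -, hpZ, -⟩ := hPP P hP
    simp only [primesLE, Finset.mem_filter, Finset.mem_range, Nat.floor_natCast]
    exact ⟨by omega, hp⟩
  rw [← Finset.sum_fiberwise_of_maps_to hmaps]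
  have hprime : ∀ p ∈ primesLE (Z : ℝ), p.Prime := fun p hp => (Finset.mem_filter.1 hp).2
  have hW0 : ∀ p ∈ primesLE (Z : ℝ), 0 ≤ W p := by
    intro p hp
    have hp1 : (1 : ℝ) ≤ p := by exact_mod_cast (hprime p hp).one_lt.le
    have h1 := hB0 p (hprime p hp).one_lt.le
    have h2 : 0 ≤ Real.log p / (p : ℝ) ^ 2 := div_nonneg (Real.log_nonneg hp1) (by positivity)
    simp only [hW]
    linarith
  have hfib : ∀ p ∈ primesLE (Z : ℝ), ∑ P ∈ (PP K Z).filter (fun P => q P = p), W (q P) ≤ D * W p := by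
    intro p hp
    have h1 : ∑ P ∈ (PP K Z).filter (fun P => q P = p), W (q P) =
        ((PP K Z).filter (fun P => q P = p)).card * W p := by
      rw [Finset.sum_congr rfl (fun P hP => by rw [(Finset.mem_filter.1 hP).2]), Finset.sum_const,
        nsmul_eq_mul]
    rw [h1]
    refine mul_le_mul_of_nonneg_right ?_ (hW0 p hp)
    have h2 := hA2 p (hprime p hp) ((PP K Z).filter (fun P => q P = p)) (by
      intro P hP
      obtain ⟨hP1, hP2⟩ := Finset.mem_filter.1 hP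
      refine ⟨(mem_PP.1 hP1).1, ?_⟩
      rw [← hP2]
      exact (hPP P hP1).2.1)
    rw [hθ.rank] at h2
    exact_mod_cast h2
  refine (Finset.sum_le_sum hfib).trans ?_
  rw [← Finset.mul_sum]
  -- the sum of `W`
  have hlog1 : 0 ≤ Real.log (Z / Y) := Real.log_nonneg (by rw [le_div_iff₀ (by linarith)]; linarith)
  have hWsum : ∑ p ∈ primesLE (Z : ℝ), W p ≤ 4 * C3 + C2 * (1 + Real.log (Z / Y)) + C1 * H := by
    simp only [hW]
    rw [Finset.sum_add_distrib, ← Finset.mul_sum]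
    have h1 : ∑ p ∈ primesLE (Z : ℝ), Real.log p / (p : ℝ) ^ 2 ≤ C3 := hS3 Z hZ1
    have h2 : ∑ p ∈ primesLE (Z : ℝ), B p ≤
        ∑ p ∈ (primesLE (Z : ℝ)).filter (fun p : ℕ => Y < p), Real.log p / p +
        ∑ p ∈ (primesLE (Z : ℝ)).filter (fun p : ℕ => (p : ℤ) ∣ dsc g θ), Real.log p / p := by
      rw [Finset.sum_filter, Finset.sum_filter, ← Finset.sum_add_distrib]
      refine Finset.sum_le_sum fun p hp => ?_
      have hp1 : (1 : ℝ) ≤ p := by exact_mod_cast (hprime p hp).one_lt.le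
      have h0 : 0 ≤ Real.log p / p := div_nonneg (Real.log_nonneg hp1) (by linarith)
      simp only [hB]
      by_cases ha : Y < p <;> by_cases hb : (p : ℤ) ∣ dsc g θ <;> simp [ha, hb] <;> linarith
    have h3 := hS2 Y Z hY hYZ
    have h4 : ∑ p ∈ (primesLE (Z : ℝ)).filter (fun p : ℕ => (p : ℤ) ∣ dsc g θ), Real.log p / p ≤
        C1 * H := by
      refine (sum_primes_dvd (dsc g θ) hdsc _ fun p hp => ?_).trans ?_
      · obtain ⟨h5, h6⟩ := Finset.mem_filter.1 hp
        exact ⟨hprime p h5, h6⟩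
      · have h5 : 0 < |((dsc g θ : ℤ) : ℝ)| := by
          rw [abs_pos]
          exact_mod_cast hdsc
        refine (Real.log_le_log h5 hdH).trans ?_
        rw [Real.log_pow]
        refine mul_le_mul_of_nonneg_left ?_ (Nat.cast_nonneg _)
        have := Real.log_le_sub_one_of_pos hH0
        linarith
    linarith
  have hD0 : (0 : ℝ) ≤ D := Nat.cast_nonneg _
  have hC10 : (0 : ℝ) ≤ C1 := Nat.cast_nonneg _
  have hpow : (2 : ℝ) ^ n * H ≤ H ^ (n + 1) := by
    rw [pow_succ]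
    exact mul_le_mul_of_nonneg_right (pow_le_pow_left₀ (by norm_num) hH2 n) hH0.le
  have hL1 : (1 : ℝ) ≤ 1 + Real.log (Z / Y) := by linarith
  have hH1 : 1 ≤ H := by linarith
  have hfin : 4 * C3 + C2 * (1 + Real.log (Z / Y)) + C1 * H ≤
      (4 * C3 + C2 + C1) * (H * (1 + Real.log (Z / Y))) := by
    have hHL : 1 ≤ H * (1 + Real.log (Z / Y)) := one_le_mul_of_one_le_of_one_le hH1 hL1
    have hHL2 : 1 + Real.log (Z / Y) ≤ H * (1 + Real.log (Z / Y)) := le_mul_of_one_le_left (by linarith) hH1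
    have hHL3 : H ≤ H * (1 + Real.log (Z / Y)) := le_mul_of_one_le_right hH0.le hL1
    have e1 : 4 * C3 * 1 ≤ 4 * C3 * (H * (1 + Real.log (Z / Y))) :=
      mul_le_mul_of_nonneg_left hHL (by linarith)
    have e2 := mul_le_mul_of_nonneg_left hHL2 hC2.le
    have e3 := mul_le_mul_of_nonneg_left hHL3 hC10
    linarith
  calc (D : ℝ) * ∑ p ∈ primesLE (Z : ℝ), W p ≤
        D * ((4 * C3 + C2 + C1) * (H * (1 + Real.log (Z / Y)))) :=
        mul_le_mul_of_nonneg_left (hWsum.trans hfin) hD0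
    _ = (D * (4 * C3 + C2 + C1)) * H * (1 + Real.log (Z / Y)) := by ring
    _ ≤ 2 ^ n * H * (1 + Real.log (Z / Y)) := by
        refine mul_le_mul_of_nonneg_right (mul_le_mul_of_nonneg_right hn.le hH0.le) (by linarith)
    _ ≤ H ^ (n + 1) * (1 + Real.log (Z / Y)) := mul_le_mul_of_nonneg_right hpow (by linarith)

end Pool.Agent.Helper27.TS.ERR
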