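import Pool.Agent.Helper2.TS.Spec

/-!
# TS: the part MAIN
-/

set_option autoImplicit false

open Polynomial Filter Topology
open scoped NumberField

namespace Pool.Agent.Helper27.TS.MAIN

open Pool.Agent.Helper20.EP Pool.Agent.Helper2.TS

/-- A monic polynomial has at most as many roots modulo `p` as its degree. -/
theorem rho_le (g : ℤ[X]) (hg : g.Monic) (p : ℕ) (hp : p.Prime) : rho g p ≤ g.natDegree := by
  have : Fact p.Prime := ⟨hp⟩
  classical
  have hm : (g.map (Int.castRingHom (ZMod p))).Monic := hg.map _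
  have hne : g.map (Int.castRingHom (ZMod p)) ≠ 0 := hm.ne_zero
  have h1 : rho g p ≤ (g.map (Int.castRingHom (ZMod p))).roots.toFinset.card := by
    unfold rho
    refine Finset.card_le_card_of_injOn (fun x : ℕ => (x : ZMod p)) ?_ ?_
    · intro x hx
      have hx' := (Finset.mem_filter.1 hx).2
      have h2 : (g.map (Int.castRingHom (ZMod p))).IsRoot (x : ZMod p) := by
        rw [IsRoot.def]
        have h3 : ((x : ℤ) : ZMod p) = (x : ZMod p) := by push_cast; rfl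
        rw [← h3, eval_intCast_map]
        simpa [ZMod.intCast_zmod_eq_zero_iff_dvd] using (ZMod.intCast_zmod_eq_zero_iff_dvd _ p).2 hx'
      show (x : ZMod p) ∈ ((g.map (Int.castRingHom (ZMod p))).roots.toFinset : Finset (ZMod p))
      rw [Multiset.mem_toFinset, mem_roots hne]
      exact h2
    · intro x hx y hy hxy
      have hx' := Finset.mem_range.1 (Finset.mem_filter.1 hx).1
      have hy' := Finset.mem_range.1 (Finset.mem_filter.1 hy).1
      have h2 : ((x : ℕ) : ZMod p) = ((y : ℕ) : ZMod p) := hxy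
      rw [ZMod.natCast_eq_natCast_iff'] at h2
      rwa [Nat.mod_eq_of_lt hx', Nat.mod_eq_of_lt hy'] at h2
  calc rho g p ≤ _ := h1
    _ ≤ Multiset.card (g.map (Int.castRingHom (ZMod p))).roots := Multiset.toFinset_card_le _
    _ ≤ (g.map (Int.castRingHom (ZMod p))).natDegree := card_roots' _
    _ ≤ g.natDegree := natDegree_map_le

theorem one_add_pow_le (D : ℕ) (t : ℝ) (h0 : 0 ≤ t) (h1 : t ≤ 1) :
    (1 + t) ^ D ≤ 1 + ((2 : ℝ) ^ D - 1) * t := by
  induction D with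
  | zero => simp
  | succ n ih =>
    have h2 : (1 : ℝ) ≤ 2 ^ n := one_le_pow₀ (by norm_num)
    have h3 : t * t ≤ t := mul_le_of_le_one_left h0 h1
    have h4 : ((2 : ℝ) ^ n - 1) * (t * t) ≤ ((2 : ℝ) ^ n - 1) * t :=
      mul_le_mul_of_nonneg_left h3 (by linarith)
    calc (1 + t) ^ (n + 1) = (1 + t) ^ n * (1 + t) := pow_succ _ _
      _ ≤ (1 + ((2 : ℝ) ^ n - 1) * t) * (1 + t) := mul_le_mul_of_nonneg_right ih (by linarith)
      _ = 1 + t + ((2 : ℝ) ^ n - 1) * t + ((2 : ℝ) ^ n - 1) * (t * t) := by ring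
      _ ≤ 1 + ((2 : ℝ) ^ (n + 1) - 1) * t := by rw [pow_succ]; linarith

theorem box_bound (D : ℕ) (X R : ℝ) (hX : 0 < X) (hR0 : 0 ≤ R) (hRX : R ≤ X) :
    (2 * (X + R) + 1) ^ D ≤ (2 * X + 1) ^ D * (1 + 2 ^ D * (R / X)) := by
  have h1 : 2 * (X + R) + 1 ≤ (2 * X + 1) * (1 + R / X) := by
    have h2 : (2 * X + 1) * (1 + R / X) = 2 * (X + R) + 1 + R / X := by
      field_simp
      ring
    have h3 : 0 ≤ R / X := by positivity
    linarith
  have h4 : 0 ≤ R / X := by positivity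
  have h5 : R / X ≤ 1 := (div_le_one hX).2 hRX
  calc (2 * (X + R) + 1) ^ D ≤ ((2 * X + 1) * (1 + R / X)) ^ D :=
        pow_le_pow_left₀ (by positivity) h1 D
    _ = (2 * X + 1) ^ D * (1 + R / X) ^ D := mul_pow _ _ _
    _ ≤ (2 * X + 1) ^ D * (1 + 2 ^ D * (R / X)) := by
        refine mul_le_mul_of_nonneg_left ?_ (by positivity)
        have := one_add_pow_le D (R / X) h4 h5
        linarith

open Classical in
theorem main (hDEG : S_DEG) (hCP : S_CP) (hS1 : S_SUM1) : S_MAIN := by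
  intro D
  rcases Nat.eq_zero_or_pos D with hD0 | hD1
  · refine ⟨0, fun g H hg => ?_⟩
    exact absurd hg.one_le (by omega)
  obtain ⟨C0, hC0⟩ := hCP D
  obtain ⟨C1, hC1, hS1⟩ := hS1 D hD1
  set C : ℕ := max C0 ⌈(D : ℝ) * 2 ^ D * C1⌉₊ with hC
  refine ⟨C, ?_⟩
  intro g H hg K _ _ θ hθ Y X Z hY hX
  have hH2 : 2 ≤ H := hg.two_le
  have hH0 : 0 < H := by linarith
  have hH1 : 1 ≤ H := by linarith
  have hCC0 : C0 ≤ C := le_max_left _ _
  have hCC1 : (D : ℝ) * 2 ^ D * C1 ≤ C :=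
    (Nat.le_ceil _).trans (Nat.cast_le.2 (le_max_right _ _))
  have hD0' : (0 : ℝ) < D := by exact_mod_cast hD1
  have hDinv : 0 ≤ 1 / (D : ℝ) := by positivity
  have hYD : 1 ≤ Y ^ (1 / (D : ℝ)) := Real.one_le_rpow hY hDinv
  have hX' : Y ^ (1 / (D : ℝ)) * H ^ C0 ≤ X := by
    refine le_trans ?_ hX
    exact mul_le_mul_of_nonneg_left (pow_le_pow_right₀ hH1 hCC0) (by linarith)
  have hX0 : (0 : ℝ) < X := by
    refine lt_of_lt_of_le ?_ hX'
    positivity
  -- the maps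
  have hdeg := hDEG g D H hg K θ hθ
  choose! φ hφ1 hφ2 using hdeg
  -- the number of points
  set N : (Σ _ : ℕ, ℕ) → ℝ := fun t => Real.log t.1 *
    (((box D X).filter fun a => (t.1 : ℤ) ∣ evz (t.2 : ℤ) a).card : ℝ) with hN
  set T : Finset (Σ _ : ℕ, ℕ) := (primesLE Y).sigma fun p =>
    (Finset.range p).filter fun x : ℕ => (p : ℤ) ∣ g.eval (x : ℤ) with hT
  have hprime : ∀ p ∈ primesLE Y, p.Prime := fun p hp => (Finset.mem_filter.1 hp).2
  have hpY : ∀ p ∈ primesLE Y, (p : ℝ) ≤ Y := by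
    intro p hp
    have h1 := Finset.mem_range.1 (Finset.mem_filter.1 hp).1
    exact (Nat.le_floor_iff (by linarith)).1 (by omega)
  have hNnn : ∀ t ∈ T, 0 ≤ N t := by
    intro t ht
    have h1 : (1 : ℝ) ≤ t.1 := by
      exact_mod_cast (hprime t.1 (Finset.mem_sigma.1 ht).1).one_lt.le
    exact mul_nonneg (Real.log_nonneg h1) (Nat.cast_nonneg _)
  set S := (PP K Z).filter fun P => (Ideal.absNorm P).Prime ∧ (Ideal.absNorm P : ℝ) ≤ Y ∧
    ¬ (Ideal.absNorm P : ℤ) ∣ dsc g θ with hS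
  have hstep1 : ∑ P ∈ PP K Z, (if (Ideal.absNorm P).Prime ∧ (Ideal.absNorm P : ℝ) ≤ Y ∧
          ¬ (Ideal.absNorm P : ℤ) ∣ dsc g θ then
          Real.log (Ideal.absNorm P : ℝ) *
            ((((box D X).erase 0).filter fun a => al θ a ∈ P).card : ℝ) else 0) ≤ ∑ t ∈ T, N t := by
    rw [← Finset.sum_filter]
    set f : Ideal (𝓞 K) → (Σ _ : ℕ, ℕ) := fun P => ⟨Ideal.absNorm P, φ (Ideal.absNorm P) P⟩ with hf
    have hinj : Set.InjOn f S := by
      intro P hP Q hQ hPQ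
      obtain ⟨hP1, hP2, hP3, hP4⟩ := Finset.mem_filter.1 hP
      obtain ⟨hQ1, hQ2, hQ3, hQ4⟩ := Finset.mem_filter.1 hQ
      simp only [hf, Sigma.mk.injEq] at hPQ
      obtain ⟨e1, e2⟩ := hPQ
      rw [heq_eq_eq, ← e1] at e2
      exact hφ2 (Ideal.absNorm P) hP2 hP4 P Q (mem_PP.1 hP1).1 (mem_PP.1 hQ1).1 rfl e1.symm e2
    have hle : ∀ P ∈ S, Real.log (Ideal.absNorm P : ℝ) *
            ((((box D X).erase 0).filter fun a => al θ a ∈ P).card : ℝ) ≤ N (f P) := by
      intro P hP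
      obtain ⟨hP1, hP2, hP3, hP4⟩ := Finset.mem_filter.1 hP
      have h1 : (1 : ℝ) ≤ Ideal.absNorm P := by exact_mod_cast hP2.one_lt.le
      refine mul_le_mul_of_nonneg_left ?_ (Real.log_nonneg h1)
      have h2 := (hφ1 (Ideal.absNorm P) hP2 P (mem_PP.1 hP1).1 rfl).2.2
      have h3 : (((box D X).erase 0).filter fun a => al θ a ∈ P) ⊆
          ((box D X).filter fun a => ((Ideal.absNorm P : ℕ) : ℤ) ∣ evz ((φ (Ideal.absNorm P) P : ℕ) : ℤ) a) := by
        intro a ha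
        obtain ⟨ha1, ha2⟩ := Finset.mem_filter.1 ha
        exact Finset.mem_filter.2 ⟨Finset.mem_of_mem_erase ha1, (h2 a).1 ha2⟩
      exact_mod_cast Finset.card_le_card h3
    refine (Finset.sum_le_sum hle).trans ?_
    rw [← Finset.sum_image (s := S) (g := f) (f := N) hinj]
    refine Finset.sum_le_sum_of_subset_of_nonneg ?_ fun t ht _ => hNnn t ht
    intro t ht
    obtain ⟨P, hP, rfl⟩ := Finset.mem_image.1 ht
    obtain ⟨hP1, hP2, hP3, hP4⟩ := Finset.mem_filter.1 hP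
    have h2 := hφ1 (Ideal.absNorm P) hP2 P (mem_PP.1 hP1).1 rfl
    rw [hT, Finset.mem_sigma]
    refine ⟨?_, ?_⟩
    · simp only [hf, primesLE, Finset.mem_filter, Finset.mem_range]
      refine ⟨?_, hP2⟩
      have := (Nat.le_floor_iff (by linarith : (0 : ℝ) ≤ Y)).2 hP3
      omega
    · simp only [hf, Finset.mem_filter, Finset.mem_range]
      exact ⟨h2.1, h2.2.1⟩
  refine hstep1.trans ?_
  rw [hT, Finset.sum_sigma]
  -- the sum for one prime number
  have hone : ∀ p ∈ primesLE Y, ∑ x ∈ (Finset.range p).filter (fun x : ℕ => (p : ℤ) ∣ g.eval (x : ℤ)), N ⟨p, x⟩ ≤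
      (2 * X + 1 : ℝ) ^ D * ((rho g p : ℝ) * Real.log p / p +
        (D * 2 ^ D * H ^ C0 / X) * (Real.log p / p * (p : ℝ) ^ (1 / (D : ℝ)))) := by
    intro p hp
    have hpp := hprime p hp
    have hp1 : (1 : ℝ) ≤ p := by exact_mod_cast hpp.one_lt.le
    have hp0 : (0 : ℝ) < p := by linarith
    have hlog : 0 ≤ Real.log p := Real.log_nonneg hp1
    set R : ℝ := (p : ℝ) ^ (1 / (D : ℝ)) * H ^ C0 with hR
    have hR0 : 0 ≤ R := by positivity
    have hRX : R ≤ X := by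
      refine le_trans ?_ hX'
      exact mul_le_mul_of_nonneg_right (Real.rpow_le_rpow hp0.le (hpY p hp) hDinv) (by positivity)
    have hbb := box_bound D X R hX0 hR0 hRX
    have hterm : ∀ x ∈ (Finset.range p).filter (fun x : ℕ => (p : ℤ) ∣ g.eval (x : ℤ)), N ⟨p, x⟩ ≤
        Real.log p / p * ((2 * X + 1) ^ D * (1 + 2 ^ D * (R / X))) := by
      intro x hx
      have hx' := (Finset.mem_filter.1 hx).2
      have h1 := (hC0 g H hg p hpp (x : ℤ) hx' X).trans hbb
      simp only [hN]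
      rw [div_mul_eq_mul_div, le_div_iff₀ hp0]
      calc Real.log p * (((box D X).filter fun a => (p : ℤ) ∣ evz (x : ℤ) a).card : ℝ) * p
          = Real.log p * (p * (((box D X).filter fun a => (p : ℤ) ∣ evz (x : ℤ) a).card : ℝ)) := by ring
        _ ≤ _ := mul_le_mul_of_nonneg_left h1 hlog
    refine (Finset.sum_le_card_nsmul _ _ _ hterm).trans ?_
    rw [nsmul_eq_mul]
    have hrho : (((Finset.range p).filter (fun x : ℕ => (p : ℤ) ∣ g.eval (x : ℤ))).card : ℝ) = rho g p := rfl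
    rw [hrho]
    have hrhoD : (rho g p : ℝ) ≤ D := by
      have := rho_le g hg.monic p hpp
      rw [hg.deg] at this
      exact_mod_cast this
    have hA0 : 0 ≤ (2 * (X : ℝ) + 1) ^ D := by positivity
    have hB0 : 0 ≤ Real.log p / p * (2 ^ D * (R / X)) := by positivity
    have h3 : (rho g p : ℝ) * (Real.log p / p * (2 ^ D * (R / X))) ≤
        D * (Real.log p / p * (2 ^ D * (R / X))) := mul_le_mul_of_nonneg_right hrhoD hB0
    calc (rho g p : ℝ) * (Real.log p / p * ((2 * X + 1) ^ D * (1 + 2 ^ D * (R / X))))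
        = (2 * X + 1 : ℝ) ^ D * ((rho g p : ℝ) * Real.log p / p +
            (rho g p : ℝ) * (Real.log p / p * (2 ^ D * (R / X)))) := by ring
      _ ≤ (2 * X + 1 : ℝ) ^ D * ((rho g p : ℝ) * Real.log p / p +
            D * (Real.log p / p * (2 ^ D * (R / X)))) := by
          refine mul_le_mul_of_nonneg_left ?_ hA0
          linarith
      _ = _ := by
          rw [hR]
          ring
  refine (Finset.sum_le_sum hone).trans ?_
  rw [← Finset.mul_sum, Finset.sum_add_distrib, ← Finset.mul_sum]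
  refine mul_le_mul_of_nonneg_left ?_ (by positivity)
  have hsum := hS1 Y hY
  have hcoef : 0 ≤ (D : ℝ) * 2 ^ D * H ^ C0 / X := by positivity
  have h1 : (D : ℝ) * 2 ^ D * H ^ C0 / X * ∑ p ∈ primesLE Y, Real.log p / p * (p : ℝ) ^ (1 / (D : ℝ)) ≤ C := by
    calc (D : ℝ) * 2 ^ D * H ^ C0 / X * ∑ p ∈ primesLE Y, Real.log p / p * (p : ℝ) ^ (1 / (D : ℝ))
        ≤ (D : ℝ) * 2 ^ D * H ^ C0 / X * (C1 * Y ^ (1 / (D : ℝ))) :=
          mul_le_mul_of_nonneg_left hsum hcoef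
      _ = ((D : ℝ) * 2 ^ D * C1) * ((Y ^ (1 / (D : ℝ)) * H ^ C0) / X) := by ring
      _ ≤ ((D : ℝ) * 2 ^ D * C1) * 1 := by
          refine mul_le_mul_of_nonneg_left ?_ (by positivity)
          exact (div_le_one hX0).2 hX'
      _ ≤ C := by rw [mul_one]; exact hCC1
  linarith

end Pool.Agent.Helper27.TS.MAIN
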